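import Pool.Agent.H88.OCS.Stmts
import Pool.Agent.H70.OC.Tel
import Pool.Agent.H92.M5.Tools

/-!
# Theorem OCS: row ACL

Many samples are active: the chain rule for the digits of the velocity along the fan, blocks of
`b` digits, and the bound of the entropy of a block by the probability that two samples of the
same cell are separated.
-/

set_option autoImplicit false

namespace Pool.OCS.ACL

open Finset Real
open Pool.Agent.H49.Ent Pool.Agent.H32.Dense Pool.STK Pool.KAF Pool.OCT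

section gen

variable {Ω T U : Type} [Fintype Ω]

/-- The digits. -/
noncomputable def dg (v : Ω → ℝ) (s : ℕ) (ω : Ω) : ℤ := fl (2 ^ s) v ω

omit [Fintype Ω] in
lemma dg_add (v : Ω → ℝ) (s k : ℕ) (ω : Ω) :
    2 ^ k * dg v s ω ≤ dg v (s + k) ω ∧ dg v (s + k) ω < 2 ^ k * (dg v s ω + 1) := by
  have h := fl_two_pow k (2 ^ s) v ω
  rw [← pow_add, add_comm k s] at h
  exact h

omit [Fintype Ω] in
lemma dg_det (v : Ω → ℝ) (s k : ℕ) {ω ω' : Ω} (h : dg v (s + k) ω = dg v (s + k) ω') :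
    dg v s ω = dg v s ω' := by
  have h1 := dg_add v s k ω
  have h2 := dg_add v s k ω'
  have hp : (0 : ℤ) < 2 ^ k := by positivity
  rw [h] at h1
  have a1 : dg v s ω < dg v s ω' + 1 := lt_of_mul_lt_mul_left (h1.1.trans_lt h2.2) hp.le
  have a2 : dg v s ω' < dg v s ω + 1 := lt_of_mul_lt_mul_left (h2.1.trans_lt h1.2) hp.le
  omega

/-- The chain rule for a block, with an increasing family of side informations. -/
lemma chain_block {p : Ω → ℝ} (hp : IsLaw p) (v : Ω → ℝ) (C : Ω → T) (s b : ℕ) :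
    ∑ r ∈ range b, CH p (dg v (s + r + 1)) (fun ω => (C ω, dg v (s + r) ω)) ≤
      CH p (dg v (s + b)) (fun ω => (C ω, dg v s ω)) := by
  induction b with
  | zero =>
    rw [range_zero, sum_empty]
    exact CH_nonneg hp.nonneg _ _
  | succ b ih =>
    rw [sum_range_succ]
    have h3 := CH_chain hp.nonneg (dg v (s + b + 1)) (dg v (s + b)) (fun ω => (C ω, dg v s ω))
    have h1 : CH p (fun ω => (dg v (s + b + 1) ω, dg v (s + b) ω)) (fun ω => (C ω, dg v s ω)) ≤
        CH p (dg v (s + (b + 1))) (fun ω => (C ω, dg v s ω)) := by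
      refine CH_mono_left hp.nonneg ?_
      intro ω ω' _ _ h
      have h2 : dg v (s + b + 1) ω = dg v (s + b + 1) ω' := (Prod.ext_iff.1 h).1
      exact Prod.ext h2 (dg_det v (s + b) 1 h2)
    have h4 : CH p (dg v (s + b + 1)) (fun ω => (C ω, dg v (s + b) ω)) ≤
        CH p (dg v (s + b + 1)) (fun ω => (dg v (s + b) ω, (C ω, dg v s ω))) := by
      refine CH_mono_cond hp.nonneg ?_
      intro ω ω' _ _ h
      have h5 : dg v (s + b) ω = dg v (s + b) ω' := (Prod.ext_iff.1 h).2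
      exact Prod.ext h5 (Prod.ext (Prod.ext_iff.1 h).1 (dg_det v s b h5))
    linarith

/-- All digits. -/
lemma chain_all {p : Ω → ℝ} (hp : IsLaw p) (v : Ω → ℝ) (C : Ω → T) (X : ℕ) :
    CH p (dg v X) C ≤ CH p (dg v 0) C +
      ∑ s ∈ range X, CH p (dg v (s + 1)) (fun ω => (C ω, dg v s ω)) := by
  induction X with
  | zero => simp
  | succ X ih =>
    rw [sum_range_succ]
    have h1 := CH_le_add hp.nonneg (dg v (X + 1)) (dg v X) C
    have h2 : CH p (dg v (X + 1)) (fun ω => (dg v X ω, C ω)) ≤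
        CH p (dg v (X + 1)) (fun ω => (C ω, dg v X ω)) := by
      refine CH_mono_cond hp.nonneg ?_
      intro ω ω' _ _ h
      exact Prod.ext (Prod.ext_iff.1 h).2 (Prod.ext_iff.1 h).1
    linarith

/-- One digit. -/
lemma dg_one {p : Ω → ℝ} (hp : IsLaw p) (v : Ω → ℝ) (G : Ω → T) (s : ℕ)
    (hG : Det p G (dg v s)) : CH p (dg v (s + 1)) G ≤ Real.log 2 := by
  have h := ch_fl_le hp 1 (2 ^ s) v G hG
  rw [← pow_add, add_comm 1 s] at h
  rw [Nat.cast_one, one_mul] at h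
  exact h

/-- A block: the entropy is bounded by the probability of separation. -/
theorem block {p : Ω → ℝ} (hp : IsLaw p) (v : Ω → ℝ) (G : Ω → T) (s b : ℕ)
    (hG : Det p G (dg v s)) :
    CH p (dg v (s + b)) G ≤ 3 * Real.log 2 +
      Pr (dbl p G) {w | (2 : ℝ) ^ (-((s : ℤ) + b)) ≤ |v w.2 - v w.1|} * (b * Real.log 2) := by
  classical
  have hl2 : 0 < Real.log 2 := Real.log_pos (by norm_num)
  set o : Ω → ℤ := fun ω => dg v (s + b) ω % 2 ^ b with ho
  set F : Finset ℤ := Finset.Ico 0 (2 ^ b) with hF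
  have h2b : (0 : ℤ) < 2 ^ b := by positivity
  have hoF : ∀ ω, o ω ∈ F := by
    intro ω
    rw [hF, Finset.mem_Ico]
    exact ⟨Int.emod_nonneg _ h2b.ne', Int.emod_lt_of_pos _ h2b⟩
  have hblock : ∀ ω, dg v (s + b) ω = 2 ^ b * dg v s ω + o ω := by
    intro ω
    have h3 := dg_add v s b ω
    have h4 : dg v (s + b) ω / 2 ^ b = dg v s ω := by
      rw [Int.ediv_eq_iff_of_pos h2b]
      constructor <;> nlinarith [h3.1, h3.2]
    have h5 := Int.emod_add_mul_ediv (dg v (s + b) ω) (2 ^ b)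
    rw [h4] at h5
    linarith
  have hCo : CH p (dg v (s + b)) G ≤ CH p o G := by
    refine CH_mono_left hp.nonneg ?_
    intro ω ω' h3 h4 h5
    have h6 : o ω = o ω' := (Prod.ext_iff.1 h5).1
    have h7 : dg v s ω = dg v s ω' := hG _ _ h3 h4 (Prod.ext_iff.1 h5).2
    rw [hblock, hblock, h6, h7]
  have h6 := Pool.KX.avg6_thm Ω ℤ T p o G F (fun s x => |s - x| ≤ 1) 3 hp hoF (by norm_num) (by
    intro s
    have : (F.filter fun x => |x - s| ≤ 1) ⊆ Finset.Icc (s - 1) (s + 1) := by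
      intro x hx
      have h3 := abs_le.1 (Finset.mem_filter.1 hx).2
      rw [Finset.mem_Icc]
      omega
    refine (Finset.card_le_card this).trans ?_
    rw [Int.card_Icc]
    omega)
  have hFcard : (F.card : ℝ) = 2 ^ b := by
    rw [hF, Int.card_Ico, sub_zero]
    have : (((2 : ℤ) ^ b).toNat : ℤ) = 2 ^ b := Int.toNat_of_nonneg h2b.le
    have h3 : ((((2 : ℤ) ^ b).toNat : ℤ) : ℝ) = ((2 ^ b : ℤ) : ℝ) := by rw [this]
    push_cast at h3
    exact_mod_cast h3
  rw [hFcard, Real.log_pow] at h6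
  have hd0 : ∀ w, 0 ≤ dbl p G w := dbl_nonneg hp.nonneg
  have hfar : Pr (dbl p G) {w | ¬ |o w.1 - o w.2| ≤ 1} ≤
      Pr (dbl p G) {w | (2 : ℝ) ^ (-((s : ℤ) + b)) ≤ |v w.2 - v w.1|} := by
    rw [Pool.KAF.Pr_eq, Pool.KAF.Pr_eq]
    refine Finset.sum_le_sum fun w _ => ?_
    rcases (hd0 w).eq_or_lt with h0 | h0
    · rw [← h0]
      simp
    by_cases h8 : |o w.1 - o w.2| ≤ 1
    · rw [if_neg (show w ∉ {w : Ω × Ω | ¬ |o w.1 - o w.2| ≤ 1} from fun h' => h' h8)]
      split_ifs <;> linarith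
    · rw [if_pos (show w ∈ {w : Ω × Ω | ¬ |o w.1 - o w.2| ≤ 1} from h8), if_pos]
      obtain ⟨q1, q2, q3⟩ := (glue_pos_iff hp.nonneg hp.nonneg w).1 h0
      have h9 : dg v s w.1 = dg v s w.2 := hG _ _ q1 q2 q3
      show (2 : ℝ) ^ (-((s : ℤ) + b)) ≤ |v w.2 - v w.1|
      by_contra hcon
      push Not at hcon
      apply h8
      have h10 : o w.1 - o w.2 = dg v (s + b) w.1 - dg v (s + b) w.2 := by
        rw [hblock, hblock, h9]
        ring
      rw [h10]
      have hpos : (0 : ℝ) < 2 ^ (s + b) := by positivity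
      have e1 : (2 : ℝ) ^ (-((s : ℤ) + b)) = (2 ^ (s + b))⁻¹ := by
        rw [zpow_neg, ← Nat.cast_add, zpow_natCast]
      rw [e1] at hcon
      have h11 : |2 ^ (s + b) * v w.1 - 2 ^ (s + b) * v w.2| < 1 := by
        rw [← mul_sub, abs_mul, abs_of_pos hpos, abs_sub_comm]
        have h12 := mul_lt_mul_of_pos_left hcon hpos
        rwa [mul_inv_cancel₀ hpos.ne'] at h12
      have h12 := abs_lt.1 h11
      show |⌊2 ^ (s + b) * v w.1⌋ - ⌊2 ^ (s + b) * v w.2⌋| ≤ 1
      have f1 := Int.floor_le (2 ^ (s + b) * v w.1)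
      have f2 := Int.lt_floor_add_one (2 ^ (s + b) * v w.1)
      have f3 := Int.floor_le (2 ^ (s + b) * v w.2)
      have f4 := Int.lt_floor_add_one (2 ^ (s + b) * v w.2)
      have g1 : ((⌊2 ^ (s + b) * v w.1⌋ - ⌊2 ^ (s + b) * v w.2⌋ : ℤ) : ℝ) < 2 := by
        push_cast
        linarith
      have g2 : (-2 : ℝ) < ((⌊2 ^ (s + b) * v w.1⌋ - ⌊2 ^ (s + b) * v w.2⌋ : ℤ) : ℝ) := by
        push_cast
        linarith
      have g3 : ⌊2 ^ (s + b) * v w.1⌋ - ⌊2 ^ (s + b) * v w.2⌋ < 2 := by exact_mod_cast g1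
      have g4 : -2 < ⌊2 ^ (s + b) * v w.1⌋ - ⌊2 ^ (s + b) * v w.2⌋ := by exact_mod_cast g2
      rw [abs_le]
      omega
  have hlog3 : Real.log 3 ≤ 2 * Real.log 2 := by
    rw [← Real.log_rpow (by norm_num)]
    exact Real.log_le_log (by norm_num) (by norm_num)
  push_cast at h6
  have h7 := mul_le_mul_of_nonneg_right hfar (mul_nonneg (Nat.cast_nonneg b) hl2.le)
  linarith

lemma cond_iff (p : Ω → ℝ) (Z : Ω → T) (Z' : Ω → U) (ω : Ω)
    (h : ∀ ω', Z ω' = Z ω ↔ Z' ω' = Z' ω) :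
    Pool.Agent.H49.Ent.cond p Z (Z ω) = Pool.Agent.H49.Ent.cond p Z' (Z' ω) := by
  classical
  have h1 : law p Z (Z ω) = law p Z' (Z' ω) := by
    unfold law
    refine Finset.sum_congr rfl fun ω' _ => ?_
    by_cases h2 : Z ω' = Z ω
    · rw [if_pos h2, if_pos ((h ω').1 h2)]
    · rw [if_neg h2, if_neg (fun h3 => h2 ((h ω').2 h3))]
  funext ω'
  unfold Pool.Agent.H49.Ent.cond
  rw [h1]
  by_cases h2 : Z ω' = Z ω
  · rw [if_pos h2, if_pos ((h ω').1 h2)]
  · rw [if_neg h2, if_neg (fun h3 => h2 ((h ω').2 h3))]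

/-- The sum over the depths. -/
theorem depths {p : Ω → ℝ} (hp : IsLaw p) (v : Ω → ℝ) (C : Ω → T) (a X b : ℕ)
    (hn : 2 * a ≤ X) (hb : 1 ≤ b) :
    CH p (dg v X) C ≤ CH p (dg v 0) C + (2 * a + b + 3 * X / b) * Real.log 2 +
      Real.log 2 * ∑ s ∈ Finset.Ico a (X - a),
        Pr (dbl p (fun ω => (C ω, dg v s ω)))
          {w | (2 : ℝ) ^ (-((s : ℤ) + b)) ≤ |v w.2 - v w.1|} := by
  have hl2 : 0 < Real.log 2 := Real.log_pos (by norm_num)
  have hb0 : (0 : ℝ) < b := by exact_mod_cast hb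
  set c : ℕ → ℝ := fun s => CH p (dg v (s + 1)) (fun ω => (C ω, dg v s ω)) with hc
  set E : ℕ → ℝ := fun s => Pr (dbl p (fun ω => (C ω, dg v s ω)))
    {w | (2 : ℝ) ^ (-((s : ℤ) + b)) ≤ |v w.2 - v w.1|} with hE
  have hc0 : ∀ s, 0 ≤ c s := fun s => CH_nonneg hp.nonneg _ _
  have hc1 : ∀ s, c s ≤ Real.log 2 := fun s => dg_one hp v _ s (fun ω ω' _ _ h =>
    (Prod.ext_iff.1 h).2)
  -- the blocks
  have h1 : ∀ s, ∑ r ∈ range b, c (s + r) ≤ 3 * Real.log 2 + E s * (b * Real.log 2) := fun s =>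
    (chain_block hp v C s b).trans (block hp v _ s b (fun ω ω' _ _ h => (Prod.ext_iff.1 h).2))
  have h2 : ∀ r ≤ b, ∑ s ∈ Finset.Ico a (X - a), c s - b * Real.log 2 ≤
      ∑ s ∈ Finset.Ico a (X - a), c (s + r) := by
    intro r hr
    have e1 : ∑ s ∈ Finset.Ico a (X - a), c (s + r) = ∑ s ∈ Finset.Ico (a + r) (X - a + r), c s :=
      Finset.sum_Ico_add' c a (X - a) r
    have e2 : ∑ s ∈ Finset.Ico a (X - a + r), c s = ∑ s ∈ Finset.Ico a (a + r), c s +
        ∑ s ∈ Finset.Ico (a + r) (X - a + r), c s :=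
      (Finset.sum_Ico_consecutive c (by omega) (by omega)).symm
    have e3 : ∑ s ∈ Finset.Ico a (X - a), c s ≤ ∑ s ∈ Finset.Ico a (X - a + r), c s :=
      Finset.sum_le_sum_of_subset_of_nonneg (Finset.Ico_subset_Ico le_rfl (by omega))
        (fun s _ _ => hc0 s)
    have e4 : ∑ s ∈ Finset.Ico a (a + r), c s ≤ b * Real.log 2 := by
      refine (Finset.sum_le_sum fun s _ => hc1 s).trans ?_
      rw [Finset.sum_const, Nat.card_Ico, nsmul_eq_mul]
      refine mul_le_mul_of_nonneg_right ?_ hl2.le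
      have : a + r - a ≤ b := by omega
      exact_mod_cast this
    linarith
  have h3 : b * (∑ s ∈ Finset.Ico a (X - a), c s - b * Real.log 2) ≤
      X * (3 * Real.log 2) + (∑ s ∈ Finset.Ico a (X - a), E s) * (b * Real.log 2) := by
    have e1 : (b : ℝ) * (∑ s ∈ Finset.Ico a (X - a), c s - b * Real.log 2) ≤
        ∑ r ∈ range b, ∑ s ∈ Finset.Ico a (X - a), c (s + r) := by
      have e2 := Finset.sum_le_sum fun r (hr : r ∈ range b) => h2 r (Finset.mem_range.1 hr).le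
      rwa [Finset.sum_const, Finset.card_range, nsmul_eq_mul] at e2
    rw [Finset.sum_comm] at e1
    refine e1.trans ((Finset.sum_le_sum fun s _ => h1 s).trans ?_)
    rw [Finset.sum_add_distrib, Finset.sum_const, nsmul_eq_mul, ← Finset.sum_mul]
    have e3 : ((Finset.Ico a (X - a)).card : ℝ) ≤ X := by
      rw [Nat.card_Ico]
      exact_mod_cast (by omega : X - a - a ≤ X)
    have e4 := mul_le_mul_of_nonneg_right e3 (by positivity : 0 ≤ 3 * Real.log 2)
    linarith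
  have h4 : ∑ s ∈ Finset.Ico a (X - a), c s ≤ b * Real.log 2 + 3 * X / b * Real.log 2 +
      Real.log 2 * ∑ s ∈ Finset.Ico a (X - a), E s := by
    have e1 : b * (∑ s ∈ Finset.Ico a (X - a), c s) ≤ b * (b * Real.log 2 +
        3 * X / b * Real.log 2 + Real.log 2 * ∑ s ∈ Finset.Ico a (X - a), E s) := by
      have e2 : b * (3 * X / b * Real.log 2) = X * (3 * Real.log 2) := by
        field_simp
      rw [mul_add, mul_add, e2]
      linarith
    exact le_of_mul_le_mul_left e1 hb0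
  -- all digits
  have h5 := chain_all hp v C X
  have h6 : ∑ s ∈ range X, c s ≤ 2 * a * Real.log 2 + ∑ s ∈ Finset.Ico a (X - a), c s := by
    have e1 : ∑ s ∈ range X, c s = ∑ s ∈ Finset.Ico 0 a, c s + ∑ s ∈ Finset.Ico a (X - a), c s +
        ∑ s ∈ Finset.Ico (X - a) X, c s := by
      rw [Finset.range_eq_Ico, Finset.sum_Ico_consecutive c (by omega) (by omega),
        Finset.sum_Ico_consecutive c (by omega) (by omega)]
    have e2 : ∑ s ∈ Finset.Ico 0 a, c s ≤ a * Real.log 2 := by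
      refine (Finset.sum_le_sum fun s _ => hc1 s).trans (le_of_eq ?_)
      rw [Finset.sum_const, Nat.card_Ico, nsmul_eq_mul, Nat.sub_zero]
    have e3 : ∑ s ∈ Finset.Ico (X - a) X, c s ≤ a * Real.log 2 := by
      refine (Finset.sum_le_sum fun s _ => hc1 s).trans (le_of_eq ?_)
      rw [Finset.sum_const, Nat.card_Ico, nsmul_eq_mul]
      congr 2
      omega
    linarith
  have h7 : (2 * a + b + 3 * X / b) * Real.log 2 = 2 * a * Real.log 2 + (b * Real.log 2 +
      3 * X / b * Real.log 2) := by ring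
  rw [h7]
  linarith

end gen

/-- **Row ACL.** -/
theorem acl_thm : ACLStmt := by
  intro ca hca
  have hl2 : 0 < Real.log 2 := Real.log_pos (by norm_num)
  set b : ℕ := ⌈24 / ca⌉₊ + 1 with hb
  have hb1 : 1 ≤ b := by omega
  have hb0 : (0 : ℝ) < b := by exact_mod_cast hb1
  have hb2 : 24 / ca ≤ b := by
    rw [hb]
    push_cast
    have := Nat.le_ceil (24 / ca)
    linarith
  have hb3 : 24 ≤ ca * b := by
    rw [div_le_iff₀ hca] at hb2
    linarith
  refine ⟨b, ca / 4, min (ca / 128) (1 / 16), by positivity, by positivity, ?_⟩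
  intro A
  set K : ℝ := Real.log (2 * (2 ^ (A + 1) + 1) + 1) with hK
  obtain ⟨X₀, hX₀⟩ := exists_nat_ge (8 * (K / Real.log 2 + b) / ca + 1)
  refine ⟨X₀, ?_⟩
  intro d n hOK hX hn hH4
  have hXr : (X₀ : ℝ) ≤ d.X := by exact_mod_cast hX
  have hX1 : 8 * (K / Real.log 2 + b) / ca + 1 ≤ d.X := hX₀.trans hXr
  have hn1 : (n : ℝ) ≤ ca / 128 * d.X := hn.trans
    (mul_le_mul_of_nonneg_right (min_le_left _ _) (Nat.cast_nonneg _))
  have hn2 : (n : ℝ) ≤ 1 / 16 * d.X := hn.trans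
    (mul_le_mul_of_nonneg_right (min_le_right _ _) (Nat.cast_nonneg _))
  have hn3 : 2 * (8 * n) ≤ d.X := by
    have : ((2 * (8 * n) : ℕ) : ℝ) ≤ d.X := by
      push_cast
      linarith
    exact_mod_cast this
  have hp := hOK.law
  set v : d.Om → ℝ := fun ω => d.omR (d.L ω) 0 with hv
  set C : d.Om → d.Tau × ((Fin 2 → ℤ) × ℤ × ℤ) := fun ω => (d.T ω, d.pd d.X (d.T ω) (d.L ω)) with hC
  have hdep := depths hp v C (8 * n) d.X b hn3 hb1
  -- the first digits
  have hK0 : CH d.P (dg v 0) C ≤ K := by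
    have h1 := CH_le_int hp.nonneg hp.sum_one (dg v 0) C (fun _ => (2 : ℝ) ^ (A + 1) + 1) (by
      intro ω ω' h1 h2 _
      have h3 := abs_le.1 (hOK.hom ω h1 0)
      have h4 := abs_le.1 (hOK.hom ω' h2 0)
      have e1 : ∀ ω, dg v 0 ω = ⌊v ω⌋ := by
        intro ω
        show ⌊(2 : ℝ) ^ 0 * v ω⌋ = _
        rw [pow_zero, one_mul]
      rw [e1, e1]
      push_cast
      have f1 := Int.floor_le (v ω)
      have f2 := Int.lt_floor_add_one (v ω)
      have f3 := Int.floor_le (v ω')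
      have f4 := Int.lt_floor_add_one (v ω')
      rw [abs_le, pow_succ]
      constructor <;> linarith)
    rw [Ex_const hp.sum_one] at h1
    exact h1
  -- the activity
  have hact : ∀ s, Pr (dbl d.P (fun ω => (C ω, dg v s ω)))
      {w | (2 : ℝ) ^ (-((s : ℤ) + b)) ≤ |v w.2 - v w.1|} = Ex d.P (aS d b s) := by
    intro s
    rw [Pool.M5T.Pr_dbl]
    unfold Ex
    refine Finset.sum_congr rfl fun ω _ => ?_
    have h1 : Pool.Agent.H49.Ent.cond d.P (fun ω => (C ω, dg v s ω)) (C ω, dg v s ω) =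
        Pool.Agent.H49.Ent.cond d.P (d.GK s) (d.GK s ω) := by
      refine cond_iff d.P (fun ω => (C ω, dg v s ω)) (d.GK s) ω ?_
      intro ω'
      show ((d.T ω', d.pd d.X (d.T ω') (d.L ω')), d.omd s (d.L ω') 0) =
        ((d.T ω, d.pd d.X (d.T ω) (d.L ω)), d.omd s (d.L ω) 0) ↔
        (d.T ω', d.pd d.X (d.T ω') (d.L ω'), d.omd s (d.L ω') 0) =
        (d.T ω, d.pd d.X (d.T ω) (d.L ω), d.omd s (d.L ω) 0)
      simp only [Prod.mk.injEq]
      tauto
    show d.P ω * Pr (Pool.Agent.H49.Ent.cond d.P (fun ω => (C ω, dg v s ω)) (C ω, dg v s ω))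
      {ω' | (2 : ℝ) ^ (-((s : ℤ) + b)) ≤ |v ω' - v ω|} = d.P ω * aS d b s ω
    rw [h1]
    rfl
  have hsum : ∑ s ∈ Finset.Ico (8 * n) (d.X - 8 * n), Ex d.P (aS d b s) =
      Ex d.P (fun ω => ∑ s ∈ Finset.Ico (8 * n) (d.X - 8 * n), aS d b s ω) := by
    unfold Ex
    rw [Finset.sum_comm]
    exact Finset.sum_congr rfl fun ω _ => (Finset.mul_sum _ _ _).symm
  rw [Finset.sum_congr rfl (fun s _ => hact s), hsum] at hdep
  set f : d.Om → ℝ := fun ω => ∑ s ∈ Finset.Ico (8 * n) (d.X - 8 * n), aS d b s ω with hf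
  have hXp : (0 : ℝ) < d.X := by
    have : 0 ≤ 8 * (K / Real.log 2 + b) / ca := by
      have : 0 ≤ K := Real.log_nonneg (by
        have : (0 : ℝ) < 2 ^ (A + 1) := by positivity
        linarith)
      positivity
    linarith
  -- the bound of the activity from below
  have hlow : ca * d.X ≤ K / Real.log 2 + (2 * (8 * n) + b + 3 * d.X / b) + Ex d.P f := by
    have h1 : ca * d.X * Real.log 2 ≤ CH d.P (dg v d.X) C := hH4
    have h2 : ca * d.X * Real.log 2 ≤ (K / Real.log 2 + (2 * (8 * n) + b + 3 * d.X / b) +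
        Ex d.P f) * Real.log 2 := by
      have e1 : K / Real.log 2 * Real.log 2 = K := div_mul_cancel₀ _ hl2.ne'
      push_cast at hdep
      rw [add_mul, add_mul, e1]
      linarith
    exact le_of_mul_le_mul_right h2 hl2
  have hE : ca / 2 * d.X ≤ Ex d.P f := by
    have h1 : K / Real.log 2 + b ≤ ca / 8 * d.X := by
      have h2 : 8 * (K / Real.log 2 + b) / ca ≤ d.X := by linarith
      rw [div_le_iff₀ hca] at h2
      linarith
    have h2 : 3 * (d.X : ℝ) / b ≤ ca / 8 * d.X := by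
      rw [div_le_iff₀ hb0]
      nlinarith
    linarith
  -- Markov
  have hf1 : ∀ ω, 0 < d.P ω → f ω ≤ d.X := by
    intro ω hω
    have h1 : ∀ s ∈ Finset.Ico (8 * n) (d.X - 8 * n), aS d b s ω ≤ 1 := by
      intro s _
      exact Pool.KAF.Pr_le_one (Pool.M5T.isLaw_cnd hp (d.GK s) hω) _
    refine (Finset.sum_le_sum h1).trans ?_
    rw [Finset.sum_const, Nat.card_Ico, nsmul_eq_mul, mul_one]
    exact_mod_cast (by omega : d.X - 8 * n - 8 * n ≤ d.X)
  classical
  have hM : Ex d.P f ≤ ca / 4 * d.X + d.X * Pr d.P (Act d n b (ca / 4)) := by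
    rw [← Pool.M5T.Ex_ind, ← Ex_smul, ← Ex_const hp.sum_one (ca / 4 * d.X), ← Ex_add]
    refine Ex_mono hp.nonneg fun ω hω => ?_
    by_cases h1 : ω ∈ Act d n b (ca / 4)
    · rw [if_pos h1, mul_one]
      have := hf1 ω hω
      have h2 : 0 ≤ ca / 4 * d.X := by positivity
      linarith
    · rw [if_neg h1, mul_zero, add_zero]
      have h2 : ¬ ca / 4 * d.X ≤ f ω := h1
      exact (not_le.1 h2).le
  have h1 : d.X * (ca / 4) ≤ d.X * Pr d.P (Act d n b (ca / 4)) := by linarith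
  exact le_of_mul_le_mul_left h1 hXp

end Pool.OCS.ACL
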